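import Pool.Agent.Helper7.AFT.Base
import Pool.Agent.Helper11.AF.Rigid

/-!
Module T1: dual bases for the polarisation and the contraction.
-/

namespace Pool.Agent.Helper7.AFT

open Module Pool.Agent.GPC Pool.Agent.Helper7 Pool.Agent.Helper39.AF

namespace T1aux

lemma isBil_sum_left {V ι : Type*} [AddCommGroup V] [Module ℂ V] {B : V → V → ℂ} (hB : IsBil B)
    (s : Finset ι) (c : ι → ℂ) (u : ι → V) (v : V) :
    B (∑ i ∈ s, c i • u i) v = ∑ i ∈ s, c i * B (u i) v := by
  have hl : IsLinearMap ℂ (fun u => B u v) :=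
    ⟨fun a b => hB.add_left a b v, fun c a => hB.smul_left c a v⟩
  have h := map_sum (hl.mk' _) (fun i => c i • u i) s
  have h1 : B (∑ i ∈ s, c i • u i) v = ∑ i ∈ s, B (c i • u i) v := h
  rw [h1]
  exact Finset.sum_congr rfl fun i _ => hB.smul_left _ _ _

lemma isBil_sum_right {V ι : Type*} [AddCommGroup V] [Module ℂ V] {B : V → V → ℂ} (hB : IsBil B)
    (s : Finset ι) (c : ι → ℂ) (u : ι → V) (v : V) :
    B v (∑ i ∈ s, c i • u i) = ∑ i ∈ s, c i * B v (u i) := by
  have hl : IsLinearMap ℂ (fun u => B v u) :=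
    ⟨fun a b => hB.add_right v a b, fun c a => hB.smul_right c v a⟩
  have h := map_sum (hl.mk' _) (fun i => c i • u i) s
  have h1 : B v (∑ i ∈ s, c i • u i) = ∑ i ∈ s, B v (c i • u i) := h
  rw [h1]
  exact Finset.sum_congr rfl fun i _ => hB.smul_right _ _ _

lemma pol_isBil (X : AbVar) : IsBil (X.pol) := by
  refine ⟨fun u u' v => ?_, fun c u v => ?_, fun u v v' => ?_, fun c u v => ?_⟩
  · have h : X.polForm (u + u') v = X.polForm u v + X.polForm u' v := by
      rw [map_add, LinearMap.add_apply]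
    exact h
  · have h : X.polForm (c • u) v = c * X.polForm u v := by
      rw [map_smul, LinearMap.smul_apply, smul_eq_mul]
    exact h
  · have h : X.polForm u (v + v') = X.polForm u v + X.polForm u v' := by
      rw [map_add]
    exact h
  · have h : X.polForm u (c • v) = c * X.polForm u v := by
      rw [map_smul, smul_eq_mul]
    exact h

lemma pol_nd (X : AbVar) (v : X.H1) (h : ∀ u, X.pol u v = 0) : v = 0 :=
  Pool.Agent.Helper71.AF.ndr (pData X) v h

/-- dual vectors for a basis -/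
lemma exists_dual (X : AbVar) {ι : Type} [Fintype ι] (b : Basis ι ℂ X.H1) :
    ∃ e' : ι → X.H1, ∀ u j, X.pol u (e' j) = b.repr u j := by
  classical
  obtain ⟨Ψ, hΨ⟩ : ∃ Ψ : X.H1 ≃ₗ[ℂ] Module.Dual ℂ X.H1, ∀ u v, Ψ v u = (pData X).ψ u v := by
    refine ⟨LinearMap.linearEquivOfInjective (pData X).ψ.flip ?_ Subspace.dual_finrank_eq.symm,
      fun u v => rfl⟩
    rw [← LinearMap.ker_eq_bot, LinearMap.ker_eq_bot']
    intro v hv
    apply Pool.Agent.Helper71.AF.ndr (pData X)
    intro u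
    have := congrArg (fun g => g u) hv
    exact this
  refine ⟨fun j => Ψ.symm (b.coord j), fun u j => ?_⟩
  have h1 : (pData X).ψ u (Ψ.symm (b.coord j)) = b.coord j u := by
    rw [← hΨ, LinearEquiv.apply_symm_apply]
  exact h1

lemma isDual_of (X : AbVar) {ι : Type} [Fintype ι] [DecidableEq ι] (b : Basis ι ℂ X.H1)
    (e' : ι → X.H1) (h : ∀ u j, X.pol u (e' j) = b.repr u j) : IsDual X b e' := by
  intro i j
  rw [h, Basis.repr_self, Finsupp.single_apply]

end T1aux

open T1aux

theorem sum_dual (X : AbVar) {ι κ : Type} [Fintype ι] [Fintype κ] [DecidableEq ι] [DecidableEq κ]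
    (e : Basis ι ℂ X.H1) (e' : ι → X.H1) (he : IsDual X e e') (f : Basis κ ℂ X.H1)
    (f' : κ → X.H1) (hf : IsDual X f f') (B : X.H1 → X.H1 → ℂ) (hB : IsBil B) :
    ∑ i, B (e i) (e' i) = ∑ j, B (f j) (f' j) := by
  have hp := pol_isBil X
  have h1 : ∀ u : X.H1, ∑ j, X.pol u (f' j) • f j = u := by
    intro u
    have h2 : ∀ j, X.pol u (f' j) = f.repr u j := by
      intro j
      conv_lhs => rw [← f.sum_repr u]
      rw [isBil_sum_left hp]
      rw [Finset.sum_eq_single j]
      · rw [hf j j, if_pos rfl, mul_one]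
      · intro k _ hk
        rw [hf k j, if_neg hk, mul_zero]
      · intro h; exact absurd (Finset.mem_univ j) h
    conv_rhs => rw [← f.sum_repr u]
    exact Finset.sum_congr rfl fun j _ => by rw [h2]
  have h3 : ∀ v : X.H1, ∑ i, X.pol (e i) v • e' i = v := by
    intro v
    rw [← sub_eq_zero]
    apply pol_nd X
    intro u
    have h4 : ∀ k, X.pol (e k) (∑ i, X.pol (e i) v • e' i - v) = 0 := by
      intro k
      have h5 : X.pol (e k) (∑ i, X.pol (e i) v • e' i - v) =
          X.pol (e k) (∑ i, X.pol (e i) v • e' i) - X.pol (e k) v := by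
        have h6 : ∑ i, X.pol (e i) v • e' i - v = ∑ i, X.pol (e i) v • e' i + (-1 : ℂ) • v := by
          rw [neg_one_smul, sub_eq_add_neg]
        rw [h6, hp.add_right, hp.smul_right]
        ring
      rw [h5, isBil_sum_right hp, Finset.sum_eq_single k]
      · rw [he k k, if_pos rfl, mul_one, sub_self]
      · intro i _ hi
        rw [he k i, if_neg (Ne.symm hi), mul_zero]
      · intro h; exact absurd (Finset.mem_univ k) h
    conv_lhs => rw [← e.sum_repr u]
    rw [isBil_sum_left hp]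
    exact Finset.sum_eq_zero fun k _ => by rw [h4, mul_zero]
  have h7 : ∀ i, B (e i) (e' i) = ∑ j, X.pol (e i) (f' j) * B (f j) (e' i) := by
    intro i
    conv_lhs => rw [← h1 (e i)]
    rw [isBil_sum_left hB]
  have h8 : ∀ j, B (f j) (f' j) = ∑ i, X.pol (e i) (f' j) * B (f j) (e' i) := by
    intro j
    conv_lhs => rw [← h3 (f' j)]
    rw [isBil_sum_right hB]
  rw [Finset.sum_congr rfl fun i _ => h7 i, Finset.sum_congr rfl fun j _ => h8 j,
    Finset.sum_comm]

theorem exists_betti_dual (X : AbVar) : ∃ (ι : Type) (_ : Fintype ι) (_ : DecidableEq ι)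
    (e : Basis ι ℂ X.H1) (e' : ι → X.H1), IsDual X e e' ∧ (∀ i, X.IsBetti (e i)) ∧
      ∀ i, X.IsBetti ((2 * Real.pi * Complex.I) • e' i) := by
  classical
  obtain ⟨e', he'⟩ := exists_dual X (pData X).bB
  refine ⟨(pData X).ι, (pData X).fι, Classical.decEq _, (pData X).bB, e', ?_, ?_, ?_⟩
  · intro i j
    rw [he', Basis.repr_self, Finsupp.single_apply]
  · intro i
    exact (mem_pData_Q X _).mp ((pData X).basis_mem i)
  · intro i
    rw [← mem_pData_Q]
    apply Pool.Agent.Helper71.AF.mem_Q_of_coord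
    refine Pool.Agent.Helper71.AF.coord_mem (pData X).bB (pData X).ψ (algebraMap ℚ ℂ) _
      Complex.two_pi_I_ne_zero (fun j k => ?_) (Pool.Agent.Helper71.AF.ndr (pData X)) _
      (fun j => ?_)
    · exact (pData X).hψQ _ ((pData X).basis_mem j) _ ((pData X).basis_mem k)
    · refine ⟨if j = i then 1 else 0, ?_⟩
      have h1 : (pData X).ψ ((pData X).bB j) ((2 * Real.pi * Complex.I) • e' i) =
          (2 * Real.pi * Complex.I) * X.pol ((pData X).bB j) (e' i) := by
        rw [map_smul, smul_eq_mul]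
        rfl
      rw [h1, he', Basis.repr_self, Finsupp.single_apply]
      split_ifs <;> simp

theorem exists_deRham_dual (X : AbVar) : ∃ (ι : Type) (_ : Fintype ι) (_ : DecidableEq ι)
    (e : Basis ι ℂ X.H1) (e' : ι → X.H1), IsDual X e e' ∧ (∀ i, X.IsDeRham (e i)) ∧
      ∀ i, X.IsDeRham (e' i) := by
  classical
  obtain ⟨e', he'⟩ := exists_dual X (Pi.basisFun ℂ (Fin X.g ⊕ Fin X.g))
  refine ⟨Fin X.g ⊕ Fin X.g, inferInstance, inferInstance, Pi.basisFun ℂ _, e', ?_, ?_, ?_⟩
  · intro i j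
    rw [he', Basis.repr_self, Finsupp.single_apply]
  · intro i
    rw [Pi.basisFun_apply]
    exact single_deRham X i
  · intro i j
    have h1 := Pool.Agent.Helper71.AF.coord_mem (Pi.basisFun ℂ (Fin X.g ⊕ Fin X.g)) (pData X).ψ
      (algebraMap (algebraicClosure ℚ ℂ) ℂ) 1 one_ne_zero
      (fun i j => ?_) (Pool.Agent.Helper71.AF.ndr (pData X)) (e' i) (fun j => ?_) j
    · obtain ⟨q, hq⟩ := h1
      rw [Pi.basisFun_repr] at hq
      rw [hq]
      exact mem_algebraicClosure_iff.mp q.2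
    · refine ⟨⟨(pData X).ψ (Pi.single i 1) (Pi.single j 1),
        mem_algebraicClosure_iff.mpr ((pData X).hψalg i j)⟩, ?_⟩
      rw [Pi.basisFun_apply, Pi.basisFun_apply, one_mul]
      rfl
    · refine ⟨if j = i then 1 else 0, ?_⟩
      have h2 : (pData X).ψ (Pi.basisFun ℂ (Fin X.g ⊕ Fin X.g) j) (e' i) =
          X.pol (Pi.basisFun ℂ (Fin X.g ⊕ Fin X.g) j) (e' i) := rfl
      rw [h2, he', Basis.repr_self, Finsupp.single_apply]
      split_ifs <;> simp

end Pool.Agent.Helper7.AFT
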